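import Pool.Agent.L7h99.AE.Defs

/-!
# The cut-off function
-/

set_option autoImplicit false

namespace Pool.Agent.L7h26.AE

open Pool.Agent.H12R2.And (V ee Q mem_Q)
open Pool.Agent.L7h99.AE

variable {d : ℕ}

/-- the sup distance -/
def sd (a x : V d) : ℕ := Finset.univ.sup (fun i => (x i - a i).natAbs)

lemma mem_Q_iff {a x : V d} {n : ℕ} : x ∈ Q a n ↔ sd a x ≤ n := by
  rw [mem_Q, sd, Finset.sup_le_iff]
  refine forall_congr' fun i => ?_
  simp only [Finset.mem_univ, forall_true_left]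
  rw [Int.abs_eq_natAbs]
  exact_mod_cast Iff.rfl

lemma sd_add (a x : V d) (i : Fin d) : sd a (x + ee i) ≤ sd a x + 1 := by
  rw [← mem_Q_iff]
  exact Pool.Agent.H12R2.And.Q_trans (mem_Q_iff.2 le_rfl) (Pool.Agent.H12R2.And.add_ee_mem x i)

lemma sd_sub (a x : V d) (i : Fin d) : sd a x ≤ sd a (x + ee i) + 1 := by
  rw [← mem_Q_iff]
  have h := Pool.Agent.H12R2.And.sub_ee_mem (x + ee i) i
  rw [add_sub_cancel_right] at h
  exact Pool.Agent.H12R2.And.Q_trans (mem_Q_iff.2 le_rfl) h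

/-- the numerator of the cut-off -/
def kk (a : V d) (ρ w : ℕ) (x : V d) : ℕ := min (ρ + w - sd a x) w

lemma kk_lip (a : V d) (ρ w : ℕ) (x : V d) (i : Fin d) :
    ((kk a ρ w (x + ee i) : ℝ) - kk a ρ w x) ^ 2 ≤ 1 := by
  have h1 := sd_add a x i
  have h2 := sd_sub a x i
  have h3 : kk a ρ w (x + ee i) ≤ kk a ρ w x + 1 := by unfold kk; omega
  have h4 : kk a ρ w x ≤ kk a ρ w (x + ee i) + 1 := by unfold kk; omega
  have h5 : (kk a ρ w (x + ee i) : ℝ) ≤ kk a ρ w x + 1 := by exact_mod_cast h3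
  have h6 : (kk a ρ w x : ℝ) ≤ kk a ρ w (x + ee i) + 1 := by exact_mod_cast h4
  rw [sq_le_one_iff_abs_le_one, abs_le]
  constructor <;> linarith

lemma kk_eq (a : V d) (ρ w : ℕ) (x : V d) (i : Fin d)
    (h : ¬ (x ∈ Q a (ρ + w) ∧ x + ee i ∈ Q a (ρ + w))) :
    kk a ρ w (x + ee i) = kk a ρ w x := by
  rw [mem_Q_iff, mem_Q_iff] at h
  have h1 := sd_add a x i
  have h2 := sd_sub a x i
  unfold kk
  omega

/-- the cut-off function -/
theorem s_CUT : S_CUT := by
  intro d a ρ w hw
  have hw0 : (0 : ℝ) < w := by exact_mod_cast hw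
  refine ⟨fun x => (kk a ρ w x : ℝ) / w, fun x => by positivity, ?_, ?_, ?_⟩
  · intro x hx
    rw [mem_Q_iff] at hx
    have : kk a ρ w x = w := by unfold kk; omega
    simp only [this]
    exact div_self hw0.ne'
  · intro x hx
    rw [mem_Q_iff]
    by_contra h
    apply hx
    have : kk a ρ w x = 0 := by unfold kk; omega
    simp [this]
  · intro f hf
    have key : ∀ i : Fin d, ∑' x, ((kk a ρ w (x + ee i) : ℝ) / w - (kk a ρ w x : ℝ) / w) ^ 2 *
        (f x * f (x + ee i)) ≤ (1 / w ^ 2) * ∑ x ∈ Q a (ρ + w), f x ^ 2 := by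
      intro i
      classical
      have hpt : ∀ x, ((kk a ρ w (x + ee i) : ℝ) / w - (kk a ρ w x : ℝ) / w) ^ 2 *
          (f x * f (x + ee i)) ≤ (1 / w ^ 2) *
            (if x ∈ Q a (ρ + w) ∧ x + ee i ∈ Q a (ρ + w) then
              f x ^ 2 / 2 + f (x + ee i) ^ 2 / 2 else 0) := by
        intro x
        by_cases h : x ∈ Q a (ρ + w) ∧ x + ee i ∈ Q a (ρ + w)
        · rw [if_pos h, ← sub_div, div_pow]
          have h1 := kk_lip a ρ w x i
          have h2 : 0 ≤ f x * f (x + ee i) := mul_nonneg (hf _) (hf _)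
          have h3 : f x * f (x + ee i) ≤ f x ^ 2 / 2 + f (x + ee i) ^ 2 / 2 := by
            nlinarith [sq_nonneg (f x - f (x + ee i))]
          have h4 : ((kk a ρ w (x + ee i) : ℝ) - kk a ρ w x) ^ 2 / w ^ 2 ≤ 1 / w ^ 2 := by
            gcongr
          have h5 : (0 : ℝ) ≤ 1 / w ^ 2 := by positivity
          exact (mul_le_mul_of_nonneg_right h4 h2).trans (mul_le_mul_of_nonneg_left h3 h5)
        · rw [if_neg h, kk_eq a ρ w x i h]
          simp
      have hsupp : ∀ x ∉ Q a (ρ + w), ((kk a ρ w (x + ee i) : ℝ) / w - (kk a ρ w x : ℝ) / w) ^ 2 *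
          (f x * f (x + ee i)) = 0 := by
        intro x hx
        rw [kk_eq a ρ w x i (fun h => hx h.1)]
        simp
      rw [tsum_eq_sum hsupp]
      refine (Finset.sum_le_sum fun x _ => hpt x).trans ?_
      rw [← Finset.mul_sum]
      refine mul_le_mul_of_nonneg_left ?_ (by positivity)
      have h6 : ∑ x ∈ Q a (ρ + w), (if x ∈ Q a (ρ + w) ∧ x + ee i ∈ Q a (ρ + w) then
              f x ^ 2 / 2 + f (x + ee i) ^ 2 / 2 else 0) ≤
          ∑ x ∈ Q a (ρ + w), f x ^ 2 / 2 +
            ∑ x ∈ Q a (ρ + w), (if x + ee i ∈ Q a (ρ + w) then f (x + ee i) ^ 2 / 2 else 0) := by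
        rw [← Finset.sum_add_distrib]
        refine Finset.sum_le_sum fun x hx => ?_
        by_cases h : x + ee i ∈ Q a (ρ + w)
        · rw [if_pos ⟨hx, h⟩, if_pos h]
        · rw [if_neg (fun h' => h h'.2), if_neg h, add_zero]
          positivity
      have h7 : ∑ x ∈ Q a (ρ + w), (if x + ee i ∈ Q a (ρ + w) then f (x + ee i) ^ 2 / 2 else 0) ≤
          ∑ x ∈ Q a (ρ + w), f x ^ 2 / 2 := by
        rw [← Finset.sum_filter]
        have h8 : ∑ x ∈ (Q a (ρ + w)).filter (fun x => x + ee i ∈ Q a (ρ + w)),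
            f (x + ee i) ^ 2 / 2 =
            ∑ y ∈ ((Q a (ρ + w)).filter (fun x => x + ee i ∈ Q a (ρ + w))).image
              (fun x => x + ee i), f y ^ 2 / 2 := by
          rw [Finset.sum_image]
          intro x _ y _ hxy
          exact add_right_cancel hxy
        rw [h8]
        refine Finset.sum_le_sum_of_subset_of_nonneg ?_ (fun x _ _ => by positivity)
        intro y hy
        rw [Finset.mem_image] at hy
        obtain ⟨x, hx, rfl⟩ := hy
        exact (Finset.mem_filter.1 hx).2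
      refine h6.trans ((add_le_add_right h7 _).trans (le_of_eq ?_))
      rw [← Finset.sum_add_distrib]
      exact Finset.sum_congr rfl fun x _ => by ring
    refine (Finset.sum_le_sum fun i _ => key i).trans (le_of_eq ?_)
    rw [Finset.sum_const, Finset.card_univ, Fintype.card_fin, nsmul_eq_mul]
    ring

end Pool.Agent.L7h26.AE
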