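import Pool.Agent.L7h26.AE.Cut

/-!
# Decay of the solutions from the initial event
-/

set_option autoImplicit false

namespace Pool.Agent.L7h26.AE

open Complex
open Pool.Agent.H12R2.And (V ee Q pot Good Edge hop mem_Q Q_mono self_mem_Q card_Q subsol)
open Pool.Agent.L7h99.AE

variable {d : ℕ}

/-- one step of the decay -/
theorem step (hPOI : S_POI) (hCAC : S_CAC) (hd : 1 ≤ d) {b : Bool} {n L : ℕ} {δ E : ℝ}
    (hn : 1 ≤ n) (hnL : n ≤ L) (hE : Edge d b δ E) (hδ : 16 * d * n ^ 2 * δ ≤ 1)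
    {ω : V d → Bool} {a : V d} (hD : Dn b n L ω a) {ε : ℝ} {u : V d → ℂ}
    (hu : ∀ x ∈ Q a L, hop ω u x = ((E : ℂ) + ε * I) * u x) {ρ : ℕ}
    (hρ : ρ + 8 * d * n ≤ L - n) :
    ∑ x ∈ Q a ρ, ‖u x‖ ^ 2 ≤ (1 / 4) * ∑ x ∈ Q a (ρ + 8 * d * n), ‖u x‖ ^ 2 := by
  classical
  have hd' : (1 : ℝ) ≤ d := by exact_mod_cast hd
  have hn' : (1 : ℝ) ≤ n := by exact_mod_cast hn
  have hw1 : 1 ≤ 8 * d * n := by
    have : 1 ≤ d * n := Nat.mul_pos hd hn
    nlinarith
  obtain ⟨c, hc0, hc1, hcs, hcE⟩ := s_CUT a ρ (8 * d * n) hw1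
  set w : ℕ := 8 * d * n with hw
  set B : Set (V d) := {x | ω x = b} with hB
  have hsubL : ∀ x, c x ≠ 0 → x ∈ Q a (L - n) := fun x hx => Q_mono hρ (hcs x hx)
  have hfin : (Function.support c).Finite :=
    (Q a (ρ + w)).finite_toSet.subset (fun x hx => hcs x hx)
  have hsub : ∀ x, c x ≠ 0 → (2 * d - δ + B.indicator (fun _ => (2 : ℝ)) x) * ‖u x‖ ≤
      ∑ i : Fin d, (‖u (x + ee i)‖ + ‖u (x - ee i)‖) := by
    intro x hx
    have h1 := subsol hE (hu x (Q_mono (Nat.sub_le _ _) (hsubL x hx)))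
    refine le_trans (le_of_eq ?_) h1
    by_cases hb : ω x = b
    · rw [if_pos hb, Set.indicator_of_mem (show x ∈ B from hb)]
      ring
    · rw [if_neg hb, Set.indicator_of_notMem (show x ∉ B from hb)]
      ring
  have hcac := hCAC B δ (fun x => ‖u x‖) c (fun x => norm_nonneg _) hfin hsub
  have hcut := hcE (fun x => ‖u x‖) (fun x => norm_nonneg _)
  have hgfin : (Function.support (fun x => c x * ‖u x‖)).Finite :=
    hfin.subset (fun x hx => by
      simp only [Function.mem_support] at hx ⊢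
      exact left_ne_zero_of_mul hx)
  have hpoi := hPOI B n (fun x => c x * ‖u x‖) hgfin (by
    intro x hx
    have hx' : c x ≠ 0 := left_ne_zero_of_mul hx
    have h1 := hD x (hsubL x hx')
    have h2 : ∑ z ∈ Q x n, B.indicator (fun _ => (1 : ℝ)) z =
        ((Q x n).filter (fun z => ω z = b)).card := by
      rw [Finset.card_filter]
      push_cast
      refine Finset.sum_congr rfl fun z _ => ?_
      by_cases hb : ω z = b
      · rw [if_pos hb, Set.indicator_of_mem (show z ∈ B from hb)]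
      · rw [if_neg hb, Set.indicator_of_notMem (show z ∉ B from hb)]
    rw [h2]
    exact_mod_cast h1)
  set G : ℝ := ∑' x, (c x * ‖u x‖) ^ 2 with hG
  set GB : ℝ := ∑' x, B.indicator (fun x => (c x * ‖u x‖) ^ 2) x with hGB
  set M : ℝ := ∑ x ∈ Q a (ρ + w), ‖u x‖ ^ 2 with hM
  set EE : ℝ := En (fun x => c x * ‖u x‖) with hEE
  have hG0 : 0 ≤ G := tsum_nonneg fun x => by positivity
  have hGB0 : 0 ≤ GB := tsum_nonneg fun x => Set.indicator_nonneg (fun x _ => by positivity) x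
  have h1 : EE + 2 * GB ≤ δ * G + d / w ^ 2 * M := hcac.trans (add_le_add_right hcut _)
  have hK0 : (0 : ℝ) ≤ 8 * d * n ^ 2 := by positivity
  have h2 : 8 * d * n ^ 2 * (EE + 2 * GB) ≤ 8 * d * n ^ 2 * (δ * G + d / w ^ 2 * M) :=
    mul_le_mul_of_nonneg_left h1 hK0
  have h3 : 8 * GB ≤ 8 * d * n ^ 2 * (2 * GB) := by
    have : (1 : ℝ) ≤ d * n ^ 2 := one_le_mul_of_one_le_of_one_le hd' (one_le_pow₀ hn')
    nlinarith
  have h4 : 8 * d * n ^ 2 * (δ * G) ≤ G / 2 := by nlinarith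
  have h5 : 8 * (d : ℝ) * n ^ 2 * (d / w ^ 2 * M) = M / 8 := by
    have : (w : ℝ) = 8 * d * n := by rw [hw]; push_cast; ring
    rw [this]
    have hd0 : (d : ℝ) ≠ 0 := by positivity
    have hn0 : (n : ℝ) ≠ 0 := by positivity
    field_simp
  have h6 : G ≤ M / 4 := by
    have e1 : 8 * d * n ^ 2 * (EE + 2 * GB) = 8 * d * n ^ 2 * EE + 8 * d * n ^ 2 * (2 * GB) := by
      ring
    have e2 : 8 * (d : ℝ) * n ^ 2 * (δ * G + d / w ^ 2 * M) =
      8 * d * n ^ 2 * (δ * G) + 8 * d * n ^ 2 * (d / w ^ 2 * M) := by ring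
    rw [e1, e2] at h2
    linarith
  have h7 : ∑ x ∈ Q a ρ, ‖u x‖ ^ 2 ≤ G := by
    have hs : Summable (fun x => (c x * ‖u x‖) ^ 2) := by
      refine summable_of_hasFiniteSupport ?_
      refine hgfin.subset (fun x hx => ?_)
      simp only [Function.mem_support] at hx ⊢
      exact fun h => hx (by rw [h]; simp)
    refine le_trans (le_of_eq ?_) (hs.sum_le_tsum (Q a ρ) (fun x _ => by positivity))
    refine Finset.sum_congr rfl fun x hx => ?_
    rw [hc1 x hx, one_mul]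
  linarith

/-- decay of the solutions from the initial event -/
theorem dec (hPOI : S_POI) (hCAC : S_CAC) : S_DEC := by
  intro d hd b n L δ E hn hnL hE hδ ω a hD ε u S hu hS
  have hS0 : 0 ≤ S := (norm_nonneg _).trans (hS a (self_mem_Q a _))
  have iter : ∀ m : ℕ, m * (8 * d * n) ≤ L - n →
      ∑ x ∈ Q a 0, ‖u x‖ ^ 2 ≤ (1 / 4) ^ m * ∑ x ∈ Q a (m * (8 * d * n)), ‖u x‖ ^ 2 := by
    intro m
    induction m with
    | zero => intro _; simp
    | succ m ih =>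
      intro hm
      rw [add_mul, one_mul] at hm
      have h1 := ih (by omega)
      have h2 := step hPOI hCAC hd hn hnL hE hδ hD hu (ρ := m * (8 * d * n)) hm
      rw [add_mul, one_mul, pow_succ, mul_assoc]
      exact h1.trans (mul_le_mul_of_nonneg_left h2 (by positivity))
  set m := (L - n) / (8 * d * n) with hm
  have hm1 : m * (8 * d * n) ≤ L - n := Nat.div_mul_le_self _ _
  have h1 := iter m hm1
  have h2 : ‖u a‖ ^ 2 ≤ ∑ x ∈ Q a 0, ‖u x‖ ^ 2 :=
    Finset.single_le_sum (f := fun x => ‖u x‖ ^ 2) (fun x _ => by positivity) (self_mem_Q a 0)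
  have h3 : ∑ x ∈ Q a (m * (8 * d * n)), ‖u x‖ ^ 2 ≤ (2 * L + 1) ^ d * S ^ 2 := by
    have h4 : ∑ x ∈ Q a (m * (8 * d * n)), ‖u x‖ ^ 2 ≤ ∑ x ∈ Q a L, ‖u x‖ ^ 2 :=
      Finset.sum_le_sum_of_subset_of_nonneg (Q_mono (hm1.trans (Nat.sub_le _ _)))
        (fun x _ _ => by positivity)
    refine h4.trans ?_
    have h5 : ∑ x ∈ Q a L, ‖u x‖ ^ 2 ≤ ∑ x ∈ Q a L, S ^ 2 :=
      Finset.sum_le_sum fun x hx =>
        pow_le_pow_left₀ (norm_nonneg _) (hS x (Q_mono (Nat.le_succ L) hx)) 2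
    refine h5.trans (le_of_eq ?_)
    rw [Finset.sum_const, card_Q, nsmul_eq_mul]
    push_cast
    ring
  have hK : (1 : ℝ) ≤ (2 * L + 1) ^ d := by
    have : (0 : ℝ) ≤ L := Nat.cast_nonneg L
    exact one_le_pow₀ (by linarith)
  have h6 : ‖u a‖ ^ 2 ≤ ((2 * L + 1) ^ d / 2 ^ m * S) ^ 2 := by
    calc ‖u a‖ ^ 2 ≤ (1 / 4) ^ m * ((2 * L + 1) ^ d * S ^ 2) :=
          (h2.trans h1).trans (mul_le_mul_of_nonneg_left h3 (by positivity))
      _ ≤ (1 / 4) ^ m * ((2 * L + 1) ^ d * S ^ 2) * (2 * L + 1) ^ d :=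
          le_mul_of_one_le_right (by positivity) hK
      _ = ((2 * L + 1) ^ d / 2 ^ m * S) ^ 2 := by
          have e4 : (4 : ℝ) ^ m = (2 ^ m) ^ 2 := by
            rw [← pow_mul, mul_comm m 2, pow_mul]; norm_num
          rw [mul_pow, div_pow, div_pow, one_pow, e4]
          ring
  exact (sq_le_sq₀ (norm_nonneg _) (by positivity)).1 h6

end Pool.Agent.L7h26.AE
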